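import Mathlib
import Pool.Agent.H494.FMC

set_option autoImplicit false
open MeasureTheory Set Filter Topology
open scoped ENNReal

namespace Pool.Agent.Results.MP_1b24b4_pr.StepMinimizer

/-- the standard Gaussian density `φ` -/
noncomputable def phi (u : ℝ) : ℝ := (Real.sqrt (2 * Real.pi))⁻¹ * Real.exp (-u ^ 2 / 2)

/-- `f(x) = ∫ φ(x - u) dG(u)`, the density of `Z + U`, `Z ~ N(0,1)` and `U ~ G` independent -/
noncomputable def dens (G : Measure ℝ) (x : ℝ) : ℝ := ∫ u, phi (x - u) ∂G

/-- the Fisher information `I_f = ∫ f'(x)² / f(x) dx`, as an extended nonnegative real -/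
noncomputable def fisherInfo (G : Measure ℝ) : ℝ≥0∞ :=
  ∫⁻ x, ENNReal.ofReal (deriv (dens G) x ^ 2 / dens G x)

/-- the class `𝒢_α`: probability measures on `ℝ`, symmetric about `0`, with an atom of mass
exactly `α` at `0` -/
structure InClass (α : ℝ) (G : Measure ℝ) : Prop where
  prob : IsProbabilityMeasure G
  symm : G.map (fun u => -u) = G
  atom : G {0} = ENNReal.ofReal α

/-- the kernel `K_G(u) = ∫ (-2 f''(x) / f(x) + (f'(x) / f(x))²) φ(x - u) dx` -/
noncomputable def kernel (G : Measure ℝ) (u : ℝ) : ℝ :=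
  ∫ x, (-2 * deriv (deriv (dens G)) x / dens G x + (deriv (dens G) x / dens G x) ^ 2) * phi (x - u)

/-- the step function with mass `α` at `0` and mass `w j` at each of `a j` and `-(a j)`,
`j = 0, 1, 2, …` -/
noncomputable def stepMeasure (α : ℝ) (w a : ℕ → ℝ) : Measure ℝ :=
  ENNReal.ofReal α • Measure.dirac 0 + Measure.sum (fun j : ℕ =>
    ENNReal.ofReal (w j) • (Measure.dirac (a j) + Measure.dirac (-(a j))))

theorem phi_eq : phi = FisherMin.gauss := rfl
theorem dens_eq : dens = FisherMin.dens := rfl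

theorem deriv_dens (G : Measure ℝ) [IsFiniteMeasure G] (x : ℝ) :
    deriv (dens G) x = FisherMin.densD G x := (FisherMin.hasDerivAt_dens G x).deriv

theorem deriv_deriv_dens (G : Measure ℝ) [IsFiniteMeasure G] (x : ℝ) :
    deriv (deriv (dens G)) x = FisherMin.sqm G x - FisherMin.dens G x := by
  have : deriv (dens G) = FisherMin.densD G := funext (deriv_dens G)
  rw [this]
  exact (FisherMin.hasDerivAt_densD G x).deriv

theorem fisher_eq (G : Measure ℝ) [IsFiniteMeasure G] {α : ℝ} (hα : 0 < α)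
    (hG : ENNReal.ofReal α ≤ G {0}) : fisherInfo G = ENNReal.ofReal (FisherMin.FI G) := by
  unfold fisherInfo FisherMin.FI
  rw [ofReal_integral_eq_lintegral_ofReal (FisherMin.FI_integrable G hα hG)]
  · refine lintegral_congr fun x => ?_
    rw [deriv_dens, dens_eq]
  · refine Eventually.of_forall fun x => ?_
    have := FisherMin.dens_pos G hα hG x
    simp only [Pi.zero_apply]; positivity

theorem kernel_eq (G : Measure ℝ) [IsFiniteMeasure G] {α : ℝ} (hα : 0 < α)
    (hG : ENNReal.ofReal α ≤ G {0}) (u : ℝ) : kernel G u = FisherMin.KK G u := by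
  rw [FisherMin.KK_eq G hα hG]
  unfold kernel
  refine integral_congr_ae (Eventually.of_forall fun x => ?_)
  simp only
  rw [deriv_deriv_dens, deriv_dens, dens_eq, phi_eq]
  rfl

theorem InClass.relaxed {α : ℝ} {G : Measure ℝ} (h : InClass α G) : FisherMin.Relaxed α G :=
  ⟨h.prob.measure_univ.le, h.symm, h.atom.ge⟩

/-- the explicit form on an arithmetic progression with geometric weights -/
theorem step_neg (α : ℝ) (w a : ℕ → ℝ) : stepMeasure α w (fun j => -(a j)) = stepMeasure α w a := by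
  unfold stepMeasure
  simp only [neg_neg]
  congr 2
  funext j
  rw [add_comm]

theorem step_Glat (α c p g : ℝ) : stepMeasure α (fun j => c * p ^ (j + 1))
    (fun j => ((j : ℝ) + 1) * g) = FisherMin.Glat α c p g := rfl

theorem geo_infinite (α c p g : ℝ) (hc : 0 < c) (hp : 1 ≤ p) : FisherMin.Glat α c p g univ = ∞ := by
  unfold FisherMin.Glat
  rw [Measure.add_apply, Measure.sum_apply _ MeasurableSet.univ]
  have : ∑' j : ℕ, (ENNReal.ofReal (c * p ^ (j + 1)) •
      (Measure.dirac (((j : ℝ) + 1) * g) + Measure.dirac (-(((j : ℝ) + 1) * g)))) univ = ∞ := by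
    rw [eq_top_iff]
    calc (∞ : ℝ≥0∞) = ∑' _ : ℕ, ENNReal.ofReal c := by
          rw [ENNReal.tsum_const_eq_top_of_ne_zero]
          simpa using hc
      _ ≤ _ := by
          refine ENNReal.tsum_le_tsum fun j => ?_
          rw [Measure.smul_apply, Measure.add_apply, smul_eq_mul, measure_univ, measure_univ]
          have h1 : ENNReal.ofReal c ≤ ENNReal.ofReal (c * p ^ (j + 1)) := by
            apply ENNReal.ofReal_le_ofReal
            have : 1 ≤ p ^ (j + 1) := one_le_pow₀ hp
            nlinarith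
          calc ENNReal.ofReal c ≤ ENNReal.ofReal (c * p ^ (j + 1)) * 1 := by rwa [mul_one]
            _ ≤ _ := by gcongr; norm_num
  rw [this]; simp

/-- **Theorem.** Let `0 < α < 1`. There is exactly one `G ∈ 𝒢_α` that minimises the Fisher
information.
* It is a step function, with infinitely many atoms `0, ± a 0, ± a 1, …`, `0 < a 0 < a 1 < … → ∞`.
* It is not of the suggested form `p_j = c p^j`, `g_j = j g` (`j > 0`).
* It is characterised among the members `G'` of `𝒢_α` by the condition that its kernel `K_{G'}`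
  attains its lower bound `κ` at (almost) every point of `G'` other than `0`. -/
theorem result (α : ℝ) (h0 : 0 < α) (h1 : α < 1) :
    ∃ G : Measure ℝ, InClass α G ∧
      (∀ G' : Measure ℝ, InClass α G' → fisherInfo G ≤ fisherInfo G') ∧
      (∀ G' : Measure ℝ, InClass α G' → fisherInfo G' ≤ fisherInfo G → G' = G) ∧
      (∃ a w : ℕ → ℝ, 0 < a 0 ∧ StrictMono a ∧ Tendsto a atTop atTop ∧ (∀ j, 0 < w j) ∧
        G = stepMeasure α w a) ∧
      (∀ c p g : ℝ, (∀ j : ℕ, 0 < c * p ^ (j + 1)) → g ≠ 0 →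
        G ≠ stepMeasure α (fun j => c * p ^ (j + 1)) (fun j => ((j : ℝ) + 1) * g)) ∧
      (∀ G' : Measure ℝ, InClass α G' →
        (G' = G ↔ ∃ κ : ℝ, (∀ u, κ ≤ kernel G' u) ∧ G' {u | u ≠ 0 ∧ kernel G' u ≠ κ} = 0)) := by
  obtain ⟨G, hg1, hg2, hg3, hmin'⟩ := FisherMin.exists_relaxed_min α h0 h1.le
  have hr : FisherMin.Relaxed α G := ⟨hg1, hg2, hg3⟩
  have hfin := hr.fin
  have hmin : ∀ G', FisherMin.Relaxed α G' → FisherMin.FI G ≤ FisherMin.FI G' :=
    fun G' h => hmin' G' h.1 h.2.1 h.2.2
  obtain ⟨κ, hκ, hK, hK0, hm1, ha1, hsupp⟩ := FisherMin.core α h0 h1 G hr hmin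
  have hin : InClass α G := ⟨⟨hm1⟩, hg2, ha1⟩
  have huniq : ∀ G' : Measure ℝ, InClass α G' → FisherMin.FI G' ≤ FisherMin.FI G → G' = G := by
    intro G' h' hle
    have hr' := h'.relaxed
    have hfin' := hr'.fin
    have hmix := FisherMin.relaxed_mix hr hr' (1 / 2) (by norm_num) (by norm_num)
    have e : ENNReal.ofReal (1 / 2) = (1 / 2 : ℝ≥0∞) := by
      rw [ENNReal.ofReal_div_of_pos (by norm_num)]; simp
    rw [show (1 : ℝ) - 1 / 2 = 1 / 2 by norm_num, e] at hmix
    have h3 := hmin _ hmix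
    refine (FisherMin.unique_of_mid G G' h0 hg3 hr'.2.2 ?_ ?_).symm
    · rw [hm1, h'.prob.measure_univ]
    · linarith
  have hclassmin : ∀ G' : Measure ℝ, InClass α G' → FisherMin.FI G ≤ FisherMin.FI G' :=
    fun G' h' => hmin G' h'.relaxed
  refine ⟨G, hin, ?_, ?_, ?_, ?_, ?_⟩
  · intro G' h'
    have hfin' := h'.relaxed.fin
    rw [fisher_eq G h0 hg3, fisher_eq G' h0 h'.relaxed.2.2]
    exact ENNReal.ofReal_le_ofReal (hclassmin G' h')
  · intro G' h' hle
    have hfin' := h'.relaxed.fin
    rw [fisher_eq G h0 hg3, fisher_eq G' h0 h'.relaxed.2.2,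
      ENNReal.ofReal_le_ofReal_iff (FisherMin.FI_nonneg G)] at hle
    exact huniq G' h' hle
  · obtain ⟨a, w, h2, h3, h4, h5, h6⟩ := FisherMin.step_form α h0 h1 G hr hmin
    exact ⟨a, w, h2, h3, h4, h5, h6⟩
  · intro c p g hcp hg hG
    have hcp0 := hcp 0
    have hcp1 := hcp 1
    simp only [zero_add, pow_one] at hcp0
    have hp : 0 < p := by
      have : c * p ^ (1 + 1) = c * p * p := by ring
      rw [this] at hcp1
      exact (pos_iff_pos_of_mul_pos hcp1).mp hcp0
    have hc : 0 < c := (pos_iff_pos_of_mul_pos hcp0).mpr hp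
    have hp1 : p < 1 := by
      by_contra hge
      have := geo_infinite α c p g hc (not_lt.mp hge)
      rw [← step_Glat, ← hG, hm1] at this
      exact ENNReal.one_ne_top this
    rcases lt_or_gt_of_ne hg with hneg | hpos
    · have e : stepMeasure α (fun j => c * p ^ (j + 1)) (fun j => ((j : ℝ) + 1) * g) =
          FisherMin.Glat α c p (-g) := by
        rw [← step_Glat, ← step_neg]
        congr 1
        funext j; ring
      rw [e] at hG
      rw [hG] at hr hmin
      exact FisherMin.not_lattice α h0 h1 c p (-g) hc hp hp1 (by linarith) hr hmin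
    · rw [step_Glat] at hG
      rw [hG] at hr hmin
      exact FisherMin.not_lattice α h0 h1 c p g hc hp hp1 hpos hr hmin
  · intro G' h'
    have hfin' := h'.relaxed.fin
    constructor
    · intro e
      subst e
      refine ⟨κ, fun u => ?_, ?_⟩
      · rw [kernel_eq G' h0 hg3]; exact hK u
      · simp_rw [kernel_eq G' h0 hg3]; exact hsupp
    · rintro ⟨κ', hK', hs'⟩
      simp_rw [kernel_eq G' h0 h'.relaxed.2.2] at hK' hs'
      exact huniq G' h' (FisherMin.opt_suff G' h0 h'.relaxed.2.2 κ' hK' h'.atom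
        h'.prob.measure_univ hs' G ha1 hm1)

end Pool.Agent.Results.MP_1b24b4_pr.StepMinimizer
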